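import Mathlib

/-!
# MP_c51eea_al: the dihedral group of order 16 is never a direct factor of the group of units

Let `r`, `s` be the generators of the dihedral group of order 16, embedded as a direct factor in the
group of units of a ring `R` of positive characteristic. The centralizer of `r` has index two in the
group of units, so that for every unit `u` one of `u`, `s u` commutes with `r`. Put `q = r - r⁻¹`, so
`r s - s r = q s` and `s q = - q s`. The unit `1 + (1 - s) r (1 + s) = 1 + q (1 + s)` shows that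
`q ^ 2 = 0` (the other case gives `q ^ 2 = q`, `2 q = 0`, and then `q ^ 4 = 0`, `q = 0`). Hence
`r ^ 4 - 1 = 2 (r ^ 2 - 1)` and `4 q = 0`. Let `N = 2 ^ k N'` be the characteristic, `N'` odd, and
`m = 2 N'`; then `1 - m + m s` is a unit, since `(1 - m + m s) (1 - m - m s) = 1 - 2 m` is coprime to
`N`. So `m q = 2 q = 0` or `(1 - m) q = - q = 0`, and in both cases `r ^ 4 = 1`.
-/

set_option autoImplicit false

namespace Pool.Agent.Results.MP_c51eea_al.DihedralSixteen

section ring

variable {R : Type*} [Ring R]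

theorem aux (N : ℕ) (hN : 0 < N) (hN0 : (N : R) = 0) (ρ σ : Rˣ) (h8 : ρ ^ 8 = 1)
    (hs : σ * σ = 1) (hsr : σ * ρ = ρ⁻¹ * σ)
    (hd : ∀ u : Rˣ, u * ρ = ρ * u ∨ (σ * u) * ρ = ρ * (σ * u)) : ρ ^ 4 = 1 := by
  set r : R := (ρ : R) with hr
  set t : R := ((ρ⁻¹ : Rˣ) : R) with ht
  set s : R := (σ : R) with hs'
  have rt : r * t = 1 := Units.mul_inv ρ
  have tr : t * r = 1 := Units.inv_mul ρ
  have ss : s * s = 1 := by rw [hs', ← Units.val_mul, hs, Units.val_one]
  have sr : s * r = t * s := by rw [hs', hr, ht, ← Units.val_mul, hsr, Units.val_mul]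
  have st : s * t = r * s := by
    calc s * t = (r * t) * s * t := by rw [rt, one_mul]
      _ = r * (t * s) * t := by noncomm_ring
      _ = r * (s * r) * t := by rw [sr]
      _ = r * s * (r * t) := by noncomm_ring
      _ = r * s := by rw [rt, mul_one]
  have r8 : r ^ 8 = 1 := by rw [hr, ← Units.val_pow_eq_pow_val, h8, Units.val_one]
  have scancel : ∀ x : R, x * s = 0 → x = 0 := by
    intro x hx
    calc x = x * (s * s) := by rw [ss, mul_one]
      _ = (x * s) * s := by rw [mul_assoc]
      _ = 0 := by rw [hx, zero_mul]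
  set q : R := r - t with hq
  have rq : r * q = q * r := by rw [hq, mul_sub, sub_mul, rt, tr]
  have sq : s * q = -(q * s) := by rw [hq, mul_sub, sub_mul, sr, st]; abel
  have rs : r * s - s * r = q * s := by rw [sr, hq, sub_mul]
  have hrq : r * q = r ^ 2 - 1 := by rw [hq, mul_sub, rt, pow_two]
  have hqt : q = t * (r ^ 2 - 1) := by rw [← hrq, ← mul_assoc, tr, one_mul]
  -- if `q = 0` then `r ^ 2 = 1`
  have fin0 : q = 0 → ρ ^ 4 = 1 := by
    intro h0
    have h1 : r ^ 2 = 1 := by
      have := hrq
      rw [h0, mul_zero] at this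
      exact (sub_eq_zero.1 this.symm)
    apply Units.ext
    rw [Units.val_pow_eq_pow_val, ← hr, Units.val_one]
    calc r ^ 4 = r ^ 2 * r ^ 2 := by rw [← pow_add]
      _ = 1 := by rw [h1, mul_one]
  -- the first unit
  have nn : (q * (1 + s)) * (q * (1 + s)) = 0 := by
    calc (q * (1 + s)) * (q * (1 + s)) = q * (q + s * q) * (1 + s) := by noncomm_ring
      _ = q * q * (1 - s * s) := by rw [sq]; noncomm_ring
      _ = 0 := by rw [ss, sub_self, mul_zero]
  let u : Rˣ := ⟨1 + q * (1 + s), 1 - q * (1 + s), by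
    have : (1 + q * (1 + s)) * (1 - q * (1 + s)) = 1 - (q * (1 + s)) * (q * (1 + s)) := by
      noncomm_ring
    rw [this, nn, sub_zero], by
    have : (1 - q * (1 + s)) * (1 + q * (1 + s)) = 1 - (q * (1 + s)) * (q * (1 + s)) := by
      noncomm_ring
    rw [this, nn, sub_zero]⟩
  have hu : (u : R) = 1 + q * (1 + s) := rfl
  have q2 : q * q = 0 ∨ ρ ^ 4 = 1 := by
    rcases hd u with h | h
    · left
      have h1 : (1 + q * (1 + s)) * r = r * (1 + q * (1 + s)) := by
        have := congrArg Units.val h
        rwa [Units.val_mul, Units.val_mul, hu, ← hr] at this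
      apply scancel
      have h2 : q * q * s = q * (r * s - s * r) := by rw [rs, mul_assoc]
      have h3 : q * (r * s - s * r) = r * (1 + q * (1 + s)) - (1 + q * (1 + s)) * r := by
        have : r * (1 + q * (1 + s)) - (1 + q * (1 + s)) * r =
            (r * q - q * r) + (r * q) * s - q * s * r := by noncomm_ring
        rw [this, rq]
        noncomm_ring
      rw [h2, h3, h1, sub_self]
    · right
      have h1 : (s * (1 + q * (1 + s))) * r = r * (s * (1 + q * (1 + s))) := by
        have := congrArg Units.val h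
        simp only [Units.val_mul, hu, ← hr, ← hs'] at this
        exact this
      have h2 : s * (1 + q * (1 + s)) = s - q * s - q := by
        calc s * (1 + q * (1 + s)) = s + (s * q) * (1 + s) := by noncomm_ring
          _ = s - q * s - q * (s * s) := by rw [sq]; noncomm_ring
          _ = s - q * s - q := by rw [ss, mul_one]
      rw [h2] at h1
      have h3 : (q - q * q) * s = 0 := by
        have : (q - q * q) * s = (r * s - s * r) - q * (r * s - s * r) := by
          rw [rs]; noncomm_ring
        rw [this]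
        have h4 : (r * s - s * r) - q * (r * s - s * r) =
            r * (s - q * s - q) - (s - q * s - q) * r + ((r * q - q * r) * s + (r * q - q * r)) := by
          noncomm_ring
        rw [h4, h1, rq]
        noncomm_ring
      have h4 : q * q = q := (sub_eq_zero.1 (scancel _ h3)).symm
      have h5 : q * q = -q := by
        have h6 : s * (q * q) = (q * q) * s := by
          calc s * (q * q) = (s * q) * q := by rw [mul_assoc]
            _ = -(q * s) * q := by rw [sq]
            _ = -(q * (s * q)) := by noncomm_ring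
            _ = (q * q) * s := by rw [sq]; noncomm_ring
        rw [h4, sq] at h6
        have h7 : (q + q) * s = 0 := by
          have : q * s + q * s = q * s - (-(q * s)) := by abel
          rw [add_mul, this, h6, sub_self]
        have h8 : q + q = 0 := scancel _ h7
        rw [h4]
        exact eq_neg_of_add_eq_zero_left h8
      have h6 : q + q = 0 := by
        have := h4.symm.trans h5
        nth_rewrite 1 [this]
        abel
      have h7 : (r ^ 2 - 1) + (r ^ 2 - 1) = 0 := by
        rw [← hrq, ← mul_add, h6, mul_zero]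
      have h8 : (r ^ 2 - 1) ^ 4 = 0 := by
        have e : (r ^ 2 - 1) ^ 4 = (r ^ 8 - 1) - (r ^ 4 + r ^ 4 - r ^ 2 + 1) *
            ((r ^ 2 - 1) + (r ^ 2 - 1)) := by
          noncomm_ring
        rw [e, r8, h7]
        simp
      have h9 : Commute t (r ^ 2 - 1) := by
        show t * (r ^ 2 - 1) = (r ^ 2 - 1) * t
        calc t * (r ^ 2 - 1) = (t * r) * r - t := by noncomm_ring
          _ = r * (r * t) - t := by rw [tr, rt, one_mul, mul_one]
          _ = (r ^ 2 - 1) * t := by noncomm_ring
      have h10 : q ^ 4 = 0 := by rw [hqt, h9.mul_pow, h8, mul_zero]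
      apply fin0
      calc q = q * q := h4.symm
        _ = (q * q) * (q * q) := by rw [h4, h4]
        _ = q ^ 4 := by noncomm_ring
        _ = 0 := h10
  rcases q2 with q2 | h
  swap
  · exact h
  -- consequences of `q ^ 2 = 0`
  have c2 : (r ^ 2 - 1) * (r ^ 2 - 1) = 0 := by
    rw [← hrq]
    calc r * q * (r * q) = r * (q * r) * q := by noncomm_ring
      _ = r * r * (q * q) := by rw [← rq]; noncomm_ring
      _ = 0 := by rw [q2, mul_zero]
  have r4 : r ^ 4 - 1 = (r ^ 2 - 1) + (r ^ 2 - 1) := by
    have : r ^ 4 - 1 = (r ^ 2 - 1) * (r ^ 2 - 1) + ((r ^ 2 - 1) + (r ^ 2 - 1)) := by noncomm_ring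
    rw [this, c2, zero_add]
  have c4 : (4 : ℤ) • (r ^ 2 - 1) = 0 := by
    have h1 : r ^ 8 - 1 = (r ^ 4 - 1) * (r ^ 4 - 1) + ((r ^ 4 - 1) + (r ^ 4 - 1)) := by noncomm_ring
    have h2 : (r ^ 4 - 1) * (r ^ 4 - 1) = 0 := by
      rw [r4]
      have : (r ^ 2 - 1 + (r ^ 2 - 1)) * (r ^ 2 - 1 + (r ^ 2 - 1)) =
        (4 : ℤ) • ((r ^ 2 - 1) * (r ^ 2 - 1)) := by noncomm_ring
      rw [this, c2, smul_zero]
    rw [r8, sub_self, h2, zero_add, r4] at h1
    rw [h1]
    abel
  have q4 : (4 : ℤ) • q = 0 := by
    rw [hqt, ← mul_smul_comm, c4, mul_zero]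
  -- the second unit
  obtain ⟨k, N', hN', hNN⟩ := Nat.exists_eq_two_pow_mul_odd hN.ne'
  set m : ℤ := 2 * N' with hm
  have hcop : IsCoprime (1 - 2 * m) (N : ℤ) := by
    rw [hNN]
    push_cast
    apply IsCoprime.mul_right
    · apply IsCoprime.pow_right
      exact ⟨1, m, by ring⟩
    · exact ⟨1, 4, by rw [hm]; ring⟩
  obtain ⟨x, y, hxy⟩ := hcop
  have hu1 : ((x : ℤ) : R) * ((1 - 2 * m : ℤ) : R) = 1 := by
    have := congrArg (Int.cast : ℤ → R) hxy
    push_cast at this
    rw [hN0, mul_zero, add_zero] at this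
    push_cast
    exact this
  have hv : ∀ z : R, ((m : ℤ) : R) * z = m • z := fun z => by rw [zsmul_eq_mul]
  have mcomm : ∀ z : R, z * ((m : ℤ) : R) = ((m : ℤ) : R) * z := fun z => (Int.cast_commute m z).symm
  have xcomm : ∀ z : R, z * ((x : ℤ) : R) = ((x : ℤ) : R) * z := fun z => (Int.cast_commute x z).symm
  set M : R := ((m : ℤ) : R) with hM
  set X : R := ((x : ℤ) : R) with hX
  have hXM : X * (1 - M - M) = 1 := by
    have : ((1 - 2 * m : ℤ) : R) = 1 - M - M := by push_cast; rw [hM]; noncomm_ring
    rw [← this]; exact hu1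
  have hprod : (1 - M + M * s) * (1 - M - M * s) = 1 - M - M := by
    have h1 : (1 - M + M * s) * (1 - M - M * s) =
        1 - M - M + M * M + (M * (s * 1) - M * s) - M * (s * M - M * s) - M * (s * M) * s := by
      noncomm_ring
    rw [h1, mcomm s, mul_one]
    have h2 : M * (M * s) * s = M * M * (s * s) := by noncomm_ring
    rw [h2, ss]
    noncomm_ring
  have hprod' : (1 - M - M * s) * (1 - M + M * s) = 1 - M - M := by
    have h1 : (1 - M - M * s) * (1 - M + M * s) =
        1 - M - M + M * M + (M * s - M * (s * 1)) + M * (s * M - M * s) - M * (s * M) * s := by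
      noncomm_ring
    rw [h1, mcomm s, mul_one]
    have h2 : M * (M * s) * s = M * M * (s * s) := by noncomm_ring
    rw [h2, ss]
    noncomm_ring
  let v : Rˣ := ⟨1 - M + M * s, X * (1 - M - M * s), by
    rw [← mul_assoc, xcomm, mul_assoc, hprod, hXM], by
    rw [mul_assoc, hprod', hXM]⟩
  have hvv : (v : R) = 1 - M + M * s := rfl
  have hNo : (m : ℤ) • q = (2 : ℤ) • q := by
    obtain ⟨j, hj⟩ := hN'
    have : m = 4 * j + 2 := by rw [hm, hj]; push_cast; ring
    rw [this, add_smul, mul_comm, mul_smul, q4, smul_zero, zero_add]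
  have h2q : (2 : ℤ) • q = 0 := by
    rcases hd v with h | h
    · have h1 : (1 - M + M * s) * r = r * (1 - M + M * s) := by
        have := congrArg Units.val h
        rwa [Units.val_mul, Units.val_mul, hvv, ← hr] at this
      have h2 : M * q * s = 0 := by
        have e : M * q * s = M * (r * s - s * r) := by rw [rs, mul_assoc]
        have e2 : M * (r * s - s * r) = r * (1 - M + M * s) - (1 - M + M * s) * r +
            ((r * M - M * r) - (r * M - M * r) * s) := by noncomm_ring
        rw [e, e2, h1, mcomm r]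
        noncomm_ring
      have h3 := scancel _ h2
      rw [← hNo, ← hv]
      exact h3
    · have h1 : (s * (1 - M + M * s)) * r = r * (s * (1 - M + M * s)) := by
        have := congrArg Units.val h
        simp only [Units.val_mul, hvv, ← hr, ← hs'] at this
        exact this
      have h2 : s * (1 - M + M * s) = s - M * s + M := by
        have e : s * (1 - M + M * s) = s - s * M + (s * M) * s := by noncomm_ring
        rw [e, mcomm s, mul_assoc, ss, mul_one]
      rw [h2] at h1
      have h3 : (q - M * q) * s = 0 := by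
        have e : (q - M * q) * s = (r * s - s * r) - M * (r * s - s * r) := by
          rw [rs]; noncomm_ring
        have e2 : (r * s - s * r) - M * (r * s - s * r) =
            r * (s - M * s + M) - (s - M * s + M) * r + ((r * M - M * r) * s - (r * M - M * r)) := by
          noncomm_ring
        rw [e, e2, h1, mcomm r]
        noncomm_ring
      have h4 := scancel _ h3
      rw [hv, hNo] at h4
      have h5 : q = (2 : ℤ) • q := sub_eq_zero.1 h4
      have h6 : q = 0 := by
        have : (2 : ℤ) • q = q + q := two_zsmul q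
        rw [this] at h5
        exact (left_eq_add.1 h5)
      rw [h6, smul_zero]
  apply Units.ext
  rw [Units.val_pow_eq_pow_val, ← hr, Units.val_one]
  have h1 : r ^ 4 - 1 = 0 := by
    rw [r4, ← hrq, ← two_zsmul, ← mul_smul_comm, h2q, mul_zero]
  exact sub_eq_zero.1 h1

end ring

universe u v

theorem main (R : Type u) [Ring R] (N : ℕ) (hN : 0 < N) (hN0 : (N : R) = 0) (H : Type v) [Group H] :
    IsEmpty (Rˣ ≃* DihedralGroup 8 × H) := by
  refine ⟨fun φ => ?_⟩
  set ρ : Rˣ := φ.symm (DihedralGroup.r 1, 1) with hρ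
  set σ : Rˣ := φ.symm (DihedralGroup.sr 0, 1) with hσ
  have h8 : ρ ^ 8 = 1 := by
    rw [hρ, ← map_pow, Prod.pow_mk, DihedralGroup.r_one_pow]
    have : (DihedralGroup.r ((8 : ℕ) : ZMod 8), (1 : H) ^ 8) = 1 := by
      rw [one_pow]
      have h : ((8 : ℕ) : ZMod 8) = 0 := by decide
      rw [h]; rfl
    rw [this, map_one]
  have hs : σ * σ = 1 := by
    rw [hσ, ← map_mul, Prod.mk_mul_mk, DihedralGroup.sr_mul_sr, sub_self, mul_one]
    exact map_one _
  have hsr : σ * ρ = ρ⁻¹ * σ := by
    rw [hσ, hρ, ← map_inv, ← map_mul, ← map_mul, Prod.inv_mk, Prod.mk_mul_mk, Prod.mk_mul_mk,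
      DihedralGroup.inv_r, DihedralGroup.sr_mul_r, DihedralGroup.r_mul_sr]
    congr 2
    simp
  have hd : ∀ u : Rˣ, u * ρ = ρ * u ∨ (σ * u) * ρ = ρ * (σ * u) := by
    intro u
    obtain ⟨⟨g, h⟩, rfl⟩ := φ.symm.surjective u
    cases g with
    | r i =>
      left
      rw [hρ, ← map_mul, ← map_mul, Prod.mk_mul_mk, Prod.mk_mul_mk, DihedralGroup.r_mul_r,
        DihedralGroup.r_mul_r, mul_one, one_mul, add_comm]
    | sr i =>
      right
      rw [hρ, hσ, ← map_mul, ← map_mul, ← map_mul]
      simp only [Prod.mk_mul_mk, DihedralGroup.sr_mul_sr, DihedralGroup.r_mul_r, mul_one, one_mul,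
        add_comm]
  have h4 := aux N hN hN0 ρ σ h8 hs hsr hd
  rw [hρ, ← map_pow, Prod.pow_mk, DihedralGroup.r_one_pow, ← map_one φ.symm] at h4
  have h5 := congrArg Prod.fst (φ.symm.injective h4)
  have h6 : DihedralGroup.r ((4 : ℕ) : ZMod 8) = DihedralGroup.r 0 := h5
  have h7 : ((4 : ℕ) : ZMod 8) = 0 := DihedralGroup.r.inj h6
  exact absurd h7 (by decide)

/-- The dihedral group of order 16 is a nonabelian 2-group, and for no ring `R` of positive
characteristic (in particular for no finite ring) and no group `H` is the group of units of `R`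
isomorphic to the direct product of the dihedral group of order 16 and `H`. -/
theorem result : Nat.card (DihedralGroup 8) = 16 ∧ IsPGroup 2 (DihedralGroup 8) ∧
    (∃ x y : DihedralGroup 8, x * y ≠ y * x) ∧
    (∀ (R : Type u) [Ring R] (N : ℕ), 0 < N → (N : R) = 0 → ∀ (H : Type v) [Group H],
      IsEmpty (Rˣ ≃* DihedralGroup 8 × H)) ∧
    (∀ (R : Type u) [Ring R] [Finite R] (H : Type v) [Group H],
      IsEmpty (Rˣ ≃* DihedralGroup 8 × H)) := by
  refine ⟨by rw [DihedralGroup.nat_card], ?_, ⟨DihedralGroup.r 1, DihedralGroup.sr 0, by decide⟩,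
    fun R _ N hN hN0 H _ => main R N hN hN0 H, ?_⟩
  · rw [IsPGroup.iff_card]
    exact ⟨4, by rw [DihedralGroup.nat_card]; norm_num⟩
  · intro R _ _ H _
    have : Fintype R := Fintype.ofFinite R
    exact main R (Fintype.card R) Fintype.card_pos (Nat.cast_card_eq_zero R) H

end Pool.Agent.Results.MP_c51eea_al.DihedralSixteen
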